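import Pool.Agent.Lib_helper19.GC34.Exch
import Pool.Agent.Lib_helper14.GC34.Bnd
import Pool.Agent.Lib_helper92.GC34.M1
import Pool.Agent.Lib_helper66.GC34.ContFz
import Pool.Agent.Lib_helper94.GC34.Cl

/-!
# MP_859019_mp, `α ∈ [3,4]`: the classical side (`classical`)
-/

open scoped BigOperators ComplexOrder Kronecker MatrixOrder
open MeasureTheory Set Matrix

namespace Pool.Agent.Lib_helper57.GC34

open Pool.Agent.GC34 Pool.Agent.RC

variable {ι : Type} [Fintype ι] [DecidableEq ι]

omit [Fintype ι] [DecidableEq ι] in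
theorem strict_smul {A B : Matrix ι ι ℂ} {R x : ℝ} (hR : 0 < R) (h : Strict A (R • B))
    (hx : |x| ≤ R) : Strict A (x • B) := by
  have hx1 : -R ≤ x := (abs_le.1 hx).1
  have hx2 : x ≤ R := (abs_le.1 hx).2
  -- general claim for `A + y • B`
  have key : ∀ y : ℝ, -R ≤ y → y ≤ R → (A + y • B).PosDef := by
    intro y h1 h2
    have e : A + y • B = ((R + y) / (2 * R)) • (A + R • B) + ((R - y) / (2 * R)) • (A - R • B) := by
      have hR' : R ≠ 0 := hR.ne'
      rw [smul_add, smul_sub, smul_smul, smul_smul]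
      have e1 : ((R + y) / (2 * R)) • A + ((R - y) / (2 * R)) • A = A := by
        rw [← add_smul]
        have : (R + y) / (2 * R) + (R - y) / (2 * R) = 1 := by field_simp; ring
        rw [this, one_smul]
      have e2 : ((R + y) / (2 * R) * R) • B - ((R - y) / (2 * R) * R) • B = y • B := by
        rw [← sub_smul]
        congr 1
        field_simp
        ring
      calc A + y • B = (((R + y) / (2 * R)) • A + ((R - y) / (2 * R)) • A) +
            (((R + y) / (2 * R) * R) • B - ((R - y) / (2 * R) * R) • B) := by rw [e1, e2]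
        _ = _ := by abel
    rw [e]
    rcases h1.eq_or_lt with h1' | h1'
    · have : (R + y) / (2 * R) = 0 := by rw [← h1']; simp
      rw [this, zero_smul, zero_add]
      exact h.sub.smul (div_pos (by linarith) (by linarith))
    · exact (h.add.smul (div_pos (by linarith) (by linarith))).add_posSemidef
        (h.sub.posSemidef.smul (div_nonneg (by linarith) (by linarith)))
  refine ⟨key x hx1 hx2, ?_⟩
  have := key (-x) (by linarith) (by linarith)
  rwa [neg_smul, ← sub_eq_add_neg] at this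

omit [Fintype ι] [DecidableEq ι] in
theorem strict_isPair {A B : Matrix ι ι ℂ} (h : Strict A B) : IsPair A B := by
  refine ⟨?_, h.sub.posSemidef, h.add.posSemidef⟩
  have h1 := (strict_smul (A := A) (B := B) (R := 1) (x := 0) one_pos (by rwa [one_smul])
    (by simp)).add
  simpa using h1

omit [Fintype ι] in
theorem SZ_conjTranspose (Z : Finset ι) (t : ℝ) : (SZ Z t)ᴴ = SZ Z t := by
  unfold SZ
  rw [diagonal_conjTranspose]
  congr 1
  funext i
  simp only [Pi.star_apply]
  split_ifs <;> simp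

theorem isUnit_SZ (Z : Finset ι) {t : ℝ} (ht : t ≠ 0) : IsUnit (SZ Z t) := by
  unfold SZ
  rw [isUnit_diagonal]
  rw [Pi.isUnit_iff]
  intro i
  rw [isUnit_iff_ne_zero]
  split_ifs
  · exact_mod_cast ht
  · exact one_ne_zero

theorem low_posDef (Z : Finset ι) {t : ℝ} (ht : t ≠ 0) {X : Matrix ι ι ℂ} (hX : X.PosDef) :
    (low Z t X).PosDef := by
  unfold low
  have h1 := hX.conjTranspose_mul_mul_same (B := SZ Z t)
    (Matrix.mulVec_injective_iff_isUnit.2 (isUnit_SZ Z ht))
  rwa [SZ_conjTranspose] at h1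

theorem low_add (Z : Finset ι) (t : ℝ) (X Y : Matrix ι ι ℂ) :
    low Z t (X + Y) = low Z t X + low Z t Y := by
  unfold low; rw [Matrix.mul_add, Matrix.add_mul]

theorem low_sub (Z : Finset ι) (t : ℝ) (X Y : Matrix ι ι ℂ) :
    low Z t (X - Y) = low Z t X - low Z t Y := by
  unfold low; rw [Matrix.mul_sub, Matrix.sub_mul]

theorem low_smul (Z : Finset ι) (t r : ℝ) (X : Matrix ι ι ℂ) :
    low Z t (r • X) = r • low Z t X := by
  unfold low; rw [Matrix.mul_smul, Matrix.smul_mul]

theorem strict_low (Z : Finset ι) {t : ℝ} (ht : t ≠ 0) {A B : Matrix ι ι ℂ} (h : Strict A B) :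
    Strict (low Z t A) (low Z t B) := by
  refine ⟨?_, ?_⟩
  · rw [← low_add]; exact low_posDef Z ht h.add
  · rw [← low_sub]; exact low_posDef Z ht h.sub

theorem strict_succ {n : ℕ} {A B : Matrix (Fin (n + 1)) (Fin (n + 1)) ℂ} (h : Strict A B) :
    Strict (A.submatrix Fin.succ Fin.succ) (B.submatrix Fin.succ Fin.succ) := by
  refine ⟨?_, ?_⟩
  · exact h.add.submatrix (Fin.succ_injective n)
  · exact h.sub.submatrix (Fin.succ_injective n)

theorem classical {p : ℝ} (h3 : 3 < p) (h4 : p < 4) {n : ℕ}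
    {A B : Matrix (Fin (n + 1)) (Fin (n + 1)) ℂ} {R r lam : ℝ} (hr : 1 < r) (hrR : r < R)
    (hV : Strict A (R • B)) (hl : |lam| * R < 1) (hu : B *ᵥ e0 = lam • (A *ᵥ e0))
    {m : ℕ → ℝ} {K : ℝ} (hK : ∀ k, |m k| ≤ K) (hodd : ∀ k, ¬ Even k → m k = 0) :
    (∀ t ∈ Ioo (0 : ℝ) 1, IntegrableOn (fun σ : ℝ => σ ^ (p - 2) *
      cf p (low {0} t A) (low {0} t B) lam (low {0} t A *ᵥ e0) m r σ) (Ioi 0)) ∧
    IntegrableOn (fun t : ℝ => 2 * p / t * (cq (p - 2) * ∫ σ in Ioi (0 : ℝ), σ ^ (p - 2) *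
      cf p (low {0} t A) (low {0} t B) lam (low {0} t A *ᵥ e0) m r σ)) (Ioo 0 1) ∧
    ∑' k : ℕ, Ring.choose p k * ms p A B k * m k -
      ∑' k : ℕ, Ring.choose p k * ms p (A.submatrix Fin.succ Fin.succ)
        (B.submatrix Fin.succ Fin.succ) k * m k =
      ∫ t in Ioo (0 : ℝ) 1, 2 * p / t * (cq (p - 2) * ∫ σ in Ioi (0 : ℝ), σ ^ (p - 2) *
        cf p (low {0} t A) (low {0} t B) lam (low {0} t A *ᵥ e0) m r σ) := by
  have hR1 : 1 < R := hr.trans hrR
  have hR0 : 0 < R := by linarith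
  have hV1 : Strict A B := by
    have := strict_smul (x := 1) hR0 hV (by rw [abs_one]; exact hR1.le)
    rwa [one_smul] at this
  have hV1' := strict_succ hV1
  have hP : IsPair A B := strict_isPair hV1
  have hP' : IsPair (A.submatrix Fin.succ Fin.succ) (B.submatrix Fin.succ Fin.succ) :=
    strict_isPair hV1'
  have hlam : |lam| < 1 := by
    have : |lam| * 1 ≤ |lam| * R := mul_le_mul_of_nonneg_left hR1.le (abs_nonneg _)
    linarith
  obtain ⟨h1, h1'⟩ := abs_lt.1 hlam
  obtain ⟨K0, hK0⟩ := Pool.Agent.Lib_helper14.GC34.bnd h3 h4 hR1 hV hl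
  obtain ⟨K1, hK1⟩ := Pool.Agent.Lib_helper92.GC34.ms_bdd h3 h4 hP
  obtain ⟨K2, hK2⟩ := Pool.Agent.Lib_helper92.GC34.ms_bdd h3 h4 hP'
  have hsc := Pool.Agent.Lib_helper92.GC34.summable_choose h3 h4
  have hK1' : 0 ≤ K1 := (abs_nonneg _).trans (hK1 0)
  have hK2' : 0 ≤ K2 := (abs_nonneg _).trans (hK2 0)
  have hK' : 0 ≤ K := (abs_nonneg _).trans (hK 0)
  have ha1 : Summable fun k : ℕ => |Ring.choose p k * ms p A B k| :=
    Summable.of_nonneg_of_le (fun _ => abs_nonneg _)
      (fun k => by rw [abs_mul]; exact mul_le_mul_of_nonneg_left (hK1 k) (abs_nonneg _))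
      (hsc.mul_right K1)
  have ha2 : Summable fun k : ℕ => |Ring.choose p k * ms p (A.submatrix Fin.succ Fin.succ)
        (B.submatrix Fin.succ Fin.succ) k| :=
    Summable.of_nonneg_of_le (fun _ => abs_nonneg _)
      (fun k => by rw [abs_mul]; exact mul_le_mul_of_nonneg_left (hK2 k) (abs_nonneg _))
      (hsc.mul_right K2)
  have hm1 : Summable fun k : ℕ => Ring.choose p k * ms p A B k * m k := by
    apply Summable.of_norm_bounded (ha1.mul_right K)
    intro k
    rw [Real.norm_eq_abs, abs_mul]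
    exact mul_le_mul_of_nonneg_left (hK k) (abs_nonneg _)
  have hm2 : Summable fun k : ℕ => Ring.choose p k * ms p (A.submatrix Fin.succ Fin.succ)
        (B.submatrix Fin.succ Fin.succ) k * m k := by
    apply Summable.of_norm_bounded (ha2.mul_right K)
    intro k
    rw [Real.norm_eq_abs, abs_mul]
    exact mul_le_mul_of_nonneg_left (hK k) (abs_nonneg _)
  have hx : ∀ x : ℝ, |x| ≤ 1 → ∑' k : ℕ, (Ring.choose p k * ms p A B k -
      Ring.choose p k * ms p (A.submatrix Fin.succ Fin.succ)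
        (B.submatrix Fin.succ Fin.succ) k) * x ^ k =
      ((tf (fun y => y ^ p) (A + x • B) -
      tf (fun y => y ^ p)
        (A.submatrix Fin.succ Fin.succ + x • B.submatrix Fin.succ Fin.succ)) +
      (tf (fun y => y ^ p) (A + (-x) • B) -
      tf (fun y => y ^ p)
        (A.submatrix Fin.succ Fin.succ + (-x) • B.submatrix Fin.succ Fin.succ))) / 2 := by
    intro x hx
    have e1 := (Pool.Agent.Lib_helper92.GC34.hasSum_Hs h3 h4 hP hx).sub
      (Pool.Agent.Lib_helper92.GC34.hasSum_Hs h3 h4 hP' hx)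
    have e2 : (fun k : ℕ => (Ring.choose p k * ms p A B k -
      Ring.choose p k * ms p (A.submatrix Fin.succ Fin.succ)
        (B.submatrix Fin.succ Fin.succ) k) * x ^ k) = fun k : ℕ =>
      Ring.choose p k * ms p A B k * x ^ k -
      Ring.choose p k * ms p (A.submatrix Fin.succ Fin.succ)
        (B.submatrix Fin.succ Fin.succ) k * x ^ k := by
      funext k; ring
    rw [e2, e1.tsum_eq]
    unfold Hs
    rw [neg_smul, neg_smul, ← sub_eq_add_neg, ← sub_eq_add_neg]
    ring
  obtain ⟨r1, r2, r3⟩ := Pool.Agent.Lib_helper19.GC34.exch (F := fun t σ z =>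
      Fz p (low {0} t A) (low {0} t B) lam (low {0} t A *ᵥ e0) σ z)
    (p := p) (R := R) (r := r) (K := K0) h3 h4 hr hrR
    (fun t ht σ hσ => by
      refine Pool.Agent.Lib_helper66.GC34.diff_Fz hR1 ?_ hl hσ _
      have := strict_low {0} ht.1.ne' hV
      rwa [low_smul] at this)
    (Pool.Agent.Lib_helper66.GC34.cont_Fz h3 h4 hR1 hV hl) hK0 hK hodd
    (a := fun k => Ring.choose p k * ms p A B k -
      Ring.choose p k * ms p (A.submatrix Fin.succ Fin.succ)
        (B.submatrix Fin.succ Fin.succ) k)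
    (by
      apply Summable.of_nonneg_of_le (fun _ => abs_nonneg _) (fun k => ?_) (ha1.add ha2)
      exact abs_sub _ _)
    (cq (p - 2))
    (Φ := fun x => tf (fun y => y ^ p) (A + x • B) -
      tf (fun y => y ^ p)
        (A.submatrix Fin.succ Fin.succ + x • B.submatrix Fin.succ Fin.succ))
    (fun x hx => Pool.Agent.Lib_helper94.GC34.cl_real h3 h4 hV1 h1 h1' hu hx) hx
  refine ⟨r1, r2, ?_⟩
  rw [← hm1.tsum_sub hm2]
  refine Eq.trans ?_ r3
  congr 1
  funext k
  ring

end Pool.Agent.Lib_helper57.GC34
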